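import Mathlib
import Pool.Agent.V5helper7.Qperm

/-!
# The permanental Q-polynomial is not a complete graph invariant

We exhibit two non-isomorphic graphs on 8 vertices (each with 14 edges) having the same
permanental polynomial `P`, hence the same Q-polynomial.
-/

namespace Pool.Agent.Results.MP_5909b9_co.Disproof

open MvPolynomial

/-- The linear operator `ω` on `ℚ[x, λ, μ]` (`x = X 0`, `λ = X 1`, `μ = X 2`): it sends a
monomial `x^a λ^b μ^r` to `x^a λ^b μ^r / r!`. -/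
noncomputable def omega : MvPolynomial (Fin 3) ℚ →ₗ[ℚ] MvPolynomial (Fin 3) ℚ :=
  (basisMonomials (Fin 3) ℚ).constr ℚ fun m => monomial m (1 / ((m 2).factorial : ℚ))

/-- `ω` acts on monomials as described. -/
theorem omega_monomial (m : Fin 3 →₀ ℕ) (c : ℚ) :
    omega (monomial m c) = monomial m (c / ((m 2).factorial : ℚ)) := by
  have h1 : (monomial m c : MvPolynomial (Fin 3) ℚ) = c • (basisMonomials (Fin 3) ℚ) m := by
    simp [smul_monomial]
  rw [h1, map_smul, omega, Module.Basis.constr_basis, smul_monomial]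
  congr 1
  simp [div_eq_mul_inv]

open Classical in
/-- The permanental polynomial `P(G; x, λ, μ) = per (x I + λ A + μ (J - I - A))`. -/
noncomputable def P {n : ℕ} (G : SimpleGraph (Fin n)) : MvPolynomial (Fin 3) ℚ :=
  Matrix.permanent
    ((X 0 : MvPolynomial (Fin 3) ℚ) • (1 : Matrix (Fin n) (Fin n) (MvPolynomial (Fin 3) ℚ)) +
      (X 1 : MvPolynomial (Fin 3) ℚ) • G.adjMatrix (MvPolynomial (Fin 3) ℚ) +
      (X 2 : MvPolynomial (Fin 3) ℚ) •
        ((Matrix.of fun _ _ => 1) - 1 - G.adjMatrix (MvPolynomial (Fin 3) ℚ)))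

/-- The Q-polynomial `Q(G; x, λ, μ) = ω P(G; x + μ, λ + μ, μ)`. -/
noncomputable def Q {n : ℕ} (G : SimpleGraph (Fin n)) : MvPolynomial (Fin 3) ℚ :=
  omega (aeval ![X 0 + X 2, X 1 + X 2, X 2] (P G))

/-- Edge list of the first graph. -/
def edges₁ : List (Fin 8 × Fin 8) :=
  [(0, 3), (0, 5), (0, 6), (0, 7), (1, 4), (1, 5), (2, 6), (2, 7), (3, 5), (3, 6), (4, 6), (4, 7),
    (5, 7), (6, 7)]

/-- Edge list of the second graph. -/
def edges₂ : List (Fin 8 × Fin 8) :=
  [(0, 3), (0, 5), (0, 6), (0, 7), (1, 4), (1, 5), (1, 7), (2, 5), (2, 6), (2, 7), (3, 6), (4, 6),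
    (5, 7), (6, 7)]

/-- The graph with a given edge list. -/
def ofList (E : List (Fin 8 × Fin 8)) : SimpleGraph (Fin 8) where
  Adj i j := i ≠ j ∧ ((i, j) ∈ E ∨ (j, i) ∈ E)
  symm := ⟨fun _ _ h => ⟨h.1.symm, h.2.symm⟩⟩
  loopless := ⟨fun _ h => h.1 rfl⟩

instance (E : List (Fin 8 × Fin 8)) : DecidableRel (ofList E).Adj :=
  fun _ _ => inferInstanceAs (Decidable (_ ∧ _))

/-- The kind of an entry: `0` on the diagonal, `1` at an edge, `2` at a non-edge. -/
def kind {n : ℕ} (G : SimpleGraph (Fin n)) [DecidableRel G.Adj] (i j : Fin n) : Fin 3 :=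
  if i = j then 0 else if G.Adj i j then 1 else 2

theorem P_eq {n : ℕ} (G : SimpleGraph (Fin n)) [DecidableRel G.Adj] :
    P G = Matrix.permanent (Matrix.of fun i j : Fin n =>
      (![X 0, X 1, X 2] : Fin 3 → MvPolynomial (Fin 3) ℚ) (kind G i j)) := by
  unfold P
  refine congrArg Matrix.permanent (Matrix.ext fun i j => ?_)
  by_cases h : i = j
  · subst h
    simp [kind]
  · by_cases h' : G.Adj i j
    · simp [kind, h, h']
    · simp [kind, h, h']

/-- Table of weights. -/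
def tab₁ : List (List ℕ) :=
  let a := 65536 ^ 9; let b := 65536
  [[a, 1, 1, b, 1, b, b, b],
   [1, a, 1, 1, b, b, 1, 1],
   [1, 1, a, 1, 1, 1, b, b],
   [b, 1, 1, a, 1, b, b, 1],
   [1, b, 1, 1, a, 1, b, b],
   [b, b, 1, b, 1, a, 1, b],
   [b, 1, b, b, b, 1, a, b],
   [b, 1, b, 1, b, b, b, a]]

/-- Table of weights. -/
def tab₂ : List (List ℕ) :=
  let a := 65536 ^ 9; let b := 65536
  [[a, 1, 1, b, 1, b, b, b],
   [1, a, 1, 1, b, b, 1, b],
   [1, 1, a, 1, 1, b, b, b],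
   [b, 1, 1, a, 1, 1, b, 1],
   [1, b, 1, 1, a, 1, b, 1],
   [b, b, b, 1, 1, a, 1, b],
   [b, 1, b, b, b, 1, a, b],
   [b, b, b, 1, 1, b, b, a]]

/-- Table look-up. -/
def look (t : List (List ℕ)) (i j : ℕ) : ℕ := (t.getD i []).getD j 0

theorem look₁ : ∀ i j : Fin 8, look tab₁ (([0, 1, 2, 3, 4, 5, 6, 7] : List ℕ).getD i 0) (0 + j) =
    65536 ^ V5helper7.Qperm.wt 8 (kind (ofList edges₁) i j) := by
  decide +kernel

theorem look₂ : ∀ i j : Fin 8, look tab₂ (([0, 1, 2, 3, 4, 5, 6, 7] : List ℕ).getD i 0) (0 + j) =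
    65536 ^ V5helper7.Qperm.wt 8 (kind (ofList edges₂) i j) := by
  decide +kernel

theorem lap_eq_lap : V5helper7.Qperm.lap (look tab₁) 8 0 [0, 1, 2, 3, 4, 5, 6, 7] =
    V5helper7.Qperm.lap (look tab₂) 8 0 [0, 1, 2, 3, 4, 5, 6, 7] := by
  decide +kernel

theorem P_eq_P : P (ofList edges₁) = P (ofList edges₂) := by
  rw [P_eq, P_eq]
  refine V5helper7.Qperm.permanent_kind_eq 65536 (by decide) _ _ ?_ _ _ _
  have h1 := V5helper7.Qperm.lap_eq (look tab₁) 8 0 [0, 1, 2, 3, 4, 5, 6, 7] rfl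
  have h2 := V5helper7.Qperm.lap_eq (look tab₂) 8 0 [0, 1, 2, 3, 4, 5, 6, 7] rfl
  simp only [look₁] at h1
  simp only [look₂] at h2
  rw [← h1, ← h2, lap_eq_lap]

theorem not_iso : IsEmpty (ofList edges₁ ≃g ofList edges₂) := by
  refine ⟨fun e => ?_⟩
  -- vertex `2` of the first graph has degree 2 and all its neighbours have degree 5
  have key : ∀ v : Fin 8, (ofList edges₂).degree v = 2 →
      ∃ w, (ofList edges₂).Adj v w ∧ (ofList edges₂).degree w ≠ 5 := by
    decide +kernel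
  have h2 : (ofList edges₁).degree 2 = 2 := by decide +kernel
  have h5 : ∀ w, (ofList edges₁).Adj 2 w → (ofList edges₁).degree w = 5 := by decide +kernel
  have hdeg : ∀ v, (ofList edges₂).degree (e v) = (ofList edges₁).degree v := fun v =>
    e.degree_eq v
  obtain ⟨w, hw, hw5⟩ := key (e 2) (by rw [hdeg, h2])
  obtain ⟨u, rfl⟩ := e.surjective w
  rw [hdeg] at hw5
  exact hw5 (h5 u (e.map_adj_iff.mp hw))

/-- There are two non-isomorphic graphs on 8 vertices with the same permanental polynomial and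
the same Q-polynomial; so the Q-polynomial is not a complete graph invariant. -/
theorem result :
    (∃ G H : SimpleGraph (Fin 8), P G = P H ∧ Q G = Q H ∧ IsEmpty (G ≃g H)) ∧
    ¬ ∀ n : ℕ, 1 ≤ n → ∀ G H : SimpleGraph (Fin n), Q G = Q H → Nonempty (G ≃g H) := by
  have hQ : Q (ofList edges₁) = Q (ofList edges₂) := by rw [Q, Q, P_eq_P]
  refine ⟨⟨_, _, P_eq_P, hQ, not_iso⟩, fun h => ?_⟩
  obtain ⟨e⟩ := h 8 (by norm_num) _ _ hQ
  exact not_iso.false e

end Pool.Agent.Results.MP_5909b9_co.Disproof
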